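import Mathlib
import Pool.Agent.H95.QC.Targets2
import Pool.Agent.H58.QC.K0

/-!
Module G of MP_f3a553_pr: the grid and sums over the grid.
-/

open Finset
open Pool.Agent.H95.QC

namespace Pool.Agent.H87.QC

lemma Rn_zero : Rn 0 = 0 := by simp [Rn]

lemma Rn_sub {a b : ℕ} (h : a ≤ b) : Rn b - Rn a = ∑ m ∈ Icc (a + 1) b, uZ m := by
  have h1 : Icc 1 b = Icc 1 a ∪ Icc (a + 1) b := by
    ext m
    simp only [mem_union, mem_Icc]
    omega
  have h2 : Disjoint (Icc 1 a) (Icc (a + 1) b) := by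
    rw [disjoint_left]
    intro m h1 h2
    rw [mem_Icc] at h1 h2
    omega
  unfold Rn
  rw [h1, sum_union h2]
  ring

lemma Rn_mono {a b : ℕ} (h : a ≤ b) : Rn a ≤ Rn b := by
  have h1 := Rn_sub h
  have h2 : 0 ≤ ∑ m ∈ Icc (a + 1) b, uZ m := sum_nonneg fun m _ => sq_nonneg _
  linarith

lemma Rn_nonneg (a : ℕ) : 0 ≤ Rn a := by
  have := Rn_mono (Nat.zero_le a)
  rwa [Rn_zero] at this

lemma uZ_le_one (m : ℕ) : uZ m ≤ 1 := by
  rcases Nat.eq_zero_or_pos m with h | h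
  · rw [h]; exact (Pool.Agent.H58.QC.k0.1).le
  · refine (Pool.Agent.H58.QC.k0.2 m h).2.trans ?_
    have : (1 : ℝ) ≤ m := by exact_mod_cast h
    rw [div_le_one (by positivity)]
    linarith

section
variable {Λ N K : ℕ} {n : ℕ → ℕ}

lemma Grid.pos (hΛ : 2 ≤ Λ) (g : Grid Λ N K n) {i : ℕ} (h1 : 1 ≤ i) (h2 : i ≤ K) : 1 ≤ n i := by
  induction i with
  | zero => omega
  | succ i ih =>
    rcases Nat.eq_zero_or_pos i with h | h
    · subst h; exact g.one.1
    · have h3 := ih h (by omega)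
      have h4 := (g.ratio i h (by omega)).1
      nlinarith

theorem targetG1 : TargetG1 := by
  intro Λ N hΛ hN
  have hΛ1 : 1 < Λ := by omega
  have hlog : 1 ≤ Nat.log Λ N := Nat.log_pos hΛ1 hN
  have hN0 : N ≠ 0 := by omega
  refine ⟨Nat.log Λ N + 1, fun i => N / Λ ^ (Nat.log Λ N + 1 - i), ?_, ?_, by omega, ?_, ?_⟩
  · exact Nat.div_eq_of_lt (Nat.lt_pow_succ_log_self hΛ1 N)
  · show 1 ≤ N / Λ ^ (Nat.log Λ N + 1 - 1) ∧ N / Λ ^ (Nat.log Λ N + 1 - 1) ≤ Λ
    rw [Nat.add_sub_cancel]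
    constructor
    · rw [Nat.one_le_div_iff (by positivity)]
      exact Nat.pow_log_le_self Λ hN0
    · have h := Nat.lt_pow_succ_log_self hΛ1 N
      rw [pow_succ] at h
      exact (Nat.div_lt_of_lt_mul h).le
  · show N / Λ ^ (Nat.log Λ N + 1 - (Nat.log Λ N + 1)) = N
    simp
  · intro i h1 h2
    show Λ * (N / Λ ^ (Nat.log Λ N + 1 - i)) ≤ N / Λ ^ (Nat.log Λ N + 1 - (i + 1)) ∧
      N / Λ ^ (Nat.log Λ N + 1 - (i + 1)) ≤ 2 * Λ * (N / Λ ^ (Nat.log Λ N + 1 - i))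
    obtain ⟨d, hd⟩ : ∃ d, Nat.log Λ N + 1 - i = d + 1 := ⟨Nat.log Λ N - i, by omega⟩
    have hd' : Nat.log Λ N + 1 - (i + 1) = d := by omega
    rw [hd, hd', pow_succ, ← Nat.div_div_eq_div_mul]
    set x := N / Λ ^ d with hx
    have hxΛ : Λ ≤ x := by
      rw [hx, Nat.le_div_iff_mul_le (by positivity), ← pow_succ']
      refine le_trans (Nat.pow_le_pow_right (by omega) ?_) (Nat.pow_log_le_self Λ hN0)
      omega
    have h3 : 1 ≤ x / Λ := by
      rw [Nat.one_le_div_iff (by omega)]; exact hxΛ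
    have h4 := Nat.div_add_mod x Λ
    have h5 := Nat.mod_lt x (show 0 < Λ by omega)
    constructor
    · omega
    · nlinarith

lemma incr_lower (hΛ : 2 ≤ Λ) (g : Grid Λ N K n) {i : ℕ} (h1 : 1 ≤ i) (h2 : i < K) :
    1 / 8 ≤ Rn (n (i + 1)) - Rn (n i) := by
  have hp := Grid.pos hΛ g h1 h2.le
  obtain ⟨h3, h4⟩ := g.ratio i h1 h2
  have h5 : 2 * n i ≤ n (i + 1) := by nlinarith
  rw [Rn_sub (by omega)]
  have hn1 : (0 : ℝ) < n (i + 1) := by
    have : 0 < n (i + 1) := by omega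
    exact_mod_cast this
  have h6 : ∀ m ∈ Icc (n i + 1) (n (i + 1)), 1 / (4 * (n (i + 1) : ℝ)) ≤ uZ m := by
    intro m hm
    rw [mem_Icc] at hm
    refine le_trans ?_ (Pool.Agent.H58.QC.k0.2 m (by omega)).1
    have hm0 : (0 : ℝ) < m := by
      have : 0 < m := by omega
      exact_mod_cast this
    have hm1 : (m : ℝ) ≤ n (i + 1) := by exact_mod_cast hm.2
    exact one_div_le_one_div_of_le (by positivity) (by linarith)
  refine le_trans ?_ (card_nsmul_le_sum _ _ _ h6)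
  rw [Nat.card_Icc, nsmul_eq_mul]
  have h7 : ((n (i + 1) + 1 - (n i + 1) : ℕ) : ℝ) = (n (i + 1) : ℝ) - n i := by
    rw [Nat.add_sub_add_right, Nat.cast_sub (by omega)]
  rw [h7]
  have h8 : (2 : ℝ) * n i ≤ n (i + 1) := by exact_mod_cast h5
  rw [mul_one_div, div_le_div_iff₀ (by norm_num) (by positivity)]
  linarith

lemma incr_upper (hΛ : 2 ≤ Λ) (g : Grid Λ N K n) {i : ℕ} (h1 : 1 ≤ i) (h2 : i < K) :
    Rn (n (i + 1)) - Rn (n i) ≤ Λ := by
  have hp := Grid.pos hΛ g h1 h2.le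
  obtain ⟨h3, h4⟩ := g.ratio i h1 h2
  have h5 : 2 * n i ≤ n (i + 1) := by nlinarith
  rw [Rn_sub (by omega)]
  have hn1 : (1 : ℝ) ≤ n i := by exact_mod_cast hp
  have h6 : ∀ m ∈ Icc (n i + 1) (n (i + 1)), uZ m ≤ 1 / (3 * (n i : ℝ)) := by
    intro m hm
    rw [mem_Icc] at hm
    refine (Pool.Agent.H58.QC.k0.2 m (by omega)).2.trans ?_
    have hm1 : (n i : ℝ) ≤ m := by
      have : n i ≤ m := by omega
      exact_mod_cast this
    exact one_div_le_one_div_of_le (by positivity) (by linarith)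
  refine le_trans (sum_le_card_nsmul _ _ _ h6) ?_
  rw [Nat.card_Icc, nsmul_eq_mul]
  have h7 : ((n (i + 1) + 1 - (n i + 1) : ℕ) : ℝ) = (n (i + 1) : ℝ) - n i := by
    rw [Nat.add_sub_add_right, Nat.cast_sub (by omega)]
  rw [h7, mul_one_div, div_le_iff₀ (by positivity)]
  have h8 : (n (i + 1) : ℝ) ≤ 2 * Λ * n i := by exact_mod_cast h4
  have hΛ' : (2 : ℝ) ≤ Λ := by exact_mod_cast hΛ
  nlinarith

theorem targetG2 : TargetG2 := by
  intro Λ N K n hΛ g
  constructor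
  · have h1 := g.one.2
    unfold Rn
    have h2 : ∀ m ∈ Icc 1 (n 1), uZ m ≤ 1 := fun m _ => uZ_le_one m
    refine (sum_le_card_nsmul _ _ _ h2).trans ?_
    rw [Nat.card_Icc, nsmul_eq_mul, mul_one, Nat.add_sub_cancel]
    exact_mod_cast h1
  · exact fun i h1 h2 => ⟨incr_lower hΛ g h1 h2, incr_upper hΛ g h1 h2⟩

/-- the numbers `b_i` -/
noncomputable def bI (s : ℝ) (n : ℕ → ℕ) (i : ℕ) : ℝ := 1 / s - Rn (n (i + 1))

lemma bI_eq {s : ℝ} (hs : 0 < s) (i : ℕ) : (1 - s * Rn (n (i + 1))) / s = bI s n i := by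
  unfold bI
  field_simp

lemma bI_step_lower (hΛ : 2 ≤ Λ) (g : Grid Λ N K n) (s : ℝ) {i : ℕ} (h2 : i + 1 < K) :
    bI s n (i + 1) + 1 / 8 ≤ bI s n i := by
  unfold bI
  have := incr_lower hΛ g (i := i + 1) (by omega) h2
  linarith

lemma bI_step_upper (hΛ : 2 ≤ Λ) (g : Grid Λ N K n) (s : ℝ) {i : ℕ} (h2 : i + 1 < K) :
    bI s n i ≤ bI s n (i + 1) + Λ := by
  unfold bI
  have := incr_upper hΛ g (i := i + 1) (by omega) h2
  linarith

lemma bI_last (g : Grid Λ N K n) {s : ℝ} (hs : 0 < s) : bI s n (K - 1) = (1 - s * Rn N) / s := by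
  have hK := g.hK
  have h1 : K - 1 + 1 = K := by omega
  rw [← g.last]
  unfold bI
  rw [h1]
  field_simp

lemma bI_ge (hΛ : 2 ≤ Λ) (g : Grid Λ N K n) {s : ℝ} (k : ℕ) (hk : k < K) :
    bI s n (K - 1) + (k : ℝ) / 8 ≤ bI s n (K - 1 - k) := by
  induction k with
  | zero => simp
  | succ k ih =>
    have h1 := ih (by omega)
    have h2 := bI_step_lower hΛ g s (i := K - 1 - (k + 1)) (by omega)
    have h3 : K - 1 - (k + 1) + 1 = K - 1 - k := by omega
    rw [h3] at h2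
    push_cast
    linarith

lemma rpow_tel {x y : ℝ} (hx : 0 < x) (hxy : x + 1 / 8 ≤ y) :
    y ^ (-(5 / 4) : ℝ) ≤ 32 * (x ^ (-(1 / 4) : ℝ) - y ^ (-(1 / 4) : ℝ)) := by
  have hy : 0 < y := by linarith
  set X : ℝ := x ^ (1 / 4 : ℝ) with hX
  set Y : ℝ := y ^ (1 / 4 : ℝ) with hY
  have hX0 : 0 < X := by positivity
  have hY0 : 0 < Y := by positivity
  have hXY : X ≤ Y := Real.rpow_le_rpow hx.le (by linarith) (by norm_num)
  have hx4 : X ^ 4 = x := by
    rw [hX, ← Real.rpow_natCast, ← Real.rpow_mul hx.le]; norm_num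
  have hy4 : Y ^ 4 = y := by
    rw [hY, ← Real.rpow_natCast, ← Real.rpow_mul hy.le]; norm_num
  have e1 : y ^ (-(5 / 4) : ℝ) = (Y ^ 5)⁻¹ := by
    rw [hY, ← Real.rpow_natCast, ← Real.rpow_mul hy.le, ← Real.rpow_neg hy.le]
    norm_num
  have e2 : x ^ (-(1 / 4) : ℝ) = X⁻¹ := by rw [hX, ← Real.rpow_neg hx.le]
  have e3 : y ^ (-(1 / 4) : ℝ) = Y⁻¹ := by rw [hY, ← Real.rpow_neg hy.le]
  rw [e1, e2, e3]
  have h1 : X ^ 4 + 1 / 8 ≤ Y ^ 4 := by rw [hx4, hy4]; exact hxy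
  have h2 : 32 * (X⁻¹ - Y⁻¹) = 32 * (Y - X) / (X * Y) := by field_simp
  rw [h2, inv_eq_one_div, div_le_div_iff₀ (by positivity) (by positivity)]
  -- X Y ≤ 32 (Y - X) Y^5
  have h3 : Y ^ 4 - X ^ 4 = (Y - X) * ((Y + X) * (Y ^ 2 + X ^ 2)) := by ring
  have h4 : (Y + X) * (Y ^ 2 + X ^ 2) ≤ 4 * Y ^ 3 := by
    have a1 : Y + X ≤ 2 * Y := by linarith
    have a2 : Y ^ 2 + X ^ 2 ≤ 2 * Y ^ 2 := by nlinarith
    calc (Y + X) * (Y ^ 2 + X ^ 2) ≤ (2 * Y) * (2 * Y ^ 2) := by gcongr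
      _ = 4 * Y ^ 3 := by ring
  have h5 : 1 / 8 ≤ (Y - X) * (4 * Y ^ 3) := by
    have : (Y - X) * ((Y + X) * (Y ^ 2 + X ^ 2)) ≤ (Y - X) * (4 * Y ^ 3) :=
      mul_le_mul_of_nonneg_left h4 (by linarith)
    linarith
  have h6 : 1 ≤ 32 * ((Y - X) * Y ^ 3) := by linarith
  calc 1 * (X * Y) = X * Y := one_mul _
    _ ≤ Y * Y := by gcongr
    _ = 1 * Y ^ 2 := by ring
    _ ≤ 32 * ((Y - X) * Y ^ 3) * Y ^ 2 := by gcongr
    _ = _ := by ring

theorem targetG3 : TargetG3 := by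
  intro Λ hΛ
  refine ⟨33, by norm_num, fun N K n s g hs hb => ?_⟩
  have hK := g.hK
  rw [← bI_last g hs] at hb ⊢
  have h1 : ∀ i ∈ range K, ((1 - s * Rn (n (i + 1))) / s) ^ (-(5 / 4) : ℝ) =
      bI s n i ^ (-(5 / 4) : ℝ) := fun i _ => by rw [bI_eq hs]
  rw [sum_congr rfl h1]
  have hpos : ∀ i < K, 1 ≤ bI s n i := by
    intro i hi
    have h2 := bI_ge hΛ g (s := s) (K - 1 - i) (by omega)
    have h3 : K - 1 - (K - 1 - i) = i := by omega
    rw [h3] at h2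
    have : (0 : ℝ) ≤ ((K - 1 - i : ℕ) : ℝ) / 8 := by positivity
    linarith
  -- telescoping
  have key : ∀ m, m < K → ∑ i ∈ range m, bI s n i ^ (-(5 / 4) : ℝ) ≤
      32 * (bI s n m ^ (-(1 / 4) : ℝ)) := by
    intro m
    induction m with
    | zero =>
      intro _
      rw [sum_range_zero]
      have := hpos 0 (by omega)
      positivity
    | succ m ih =>
      intro hm
      rw [sum_range_succ]
      have h2 := ih (by omega)
      have h3 := bI_step_lower hΛ g s hm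
      have h4 := rpow_tel (x := bI s n (m + 1)) (y := bI s n m)
        (by linarith [hpos (m + 1) hm]) h3
      linarith
  obtain ⟨m, rfl⟩ : ∃ m, K = m + 1 := ⟨K - 1, by omega⟩
  rw [Nat.add_sub_cancel] at hb ⊢
  rw [sum_range_succ]
  have h5 := key m (by omega)
  have h6 : bI s n m ^ (-(5 / 4) : ℝ) ≤ bI s n m ^ (-(1 / 4) : ℝ) :=
    Real.rpow_le_rpow_of_exponent_le hb (by norm_num)
  linarith

theorem targetG4 : TargetG4 := by
  intro Λ hΛ
  refine ⟨8, by norm_num, fun N K n s g hs hb => ?_⟩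
  have hK := g.hK
  have hlast := bI_last g hs
  rw [← hlast] at hb
  have h1 : ∀ i ∈ range K, s / (1 - s * Rn (n (i + 1))) = 1 / bI s n i := fun i _ => by
    rw [← bI_eq hs, one_div_div]
  rw [sum_congr rfl h1]
  have hpos : ∀ i < K, 1 ≤ bI s n i := by
    intro i hi
    have h2 := bI_ge hΛ g (s := s) (K - 1 - i) (by omega)
    have h3 : K - 1 - (K - 1 - i) = i := by omega
    rw [h3] at h2
    have : (0 : ℝ) ≤ ((K - 1 - i : ℕ) : ℝ) / 8 := by positivity
    linarith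
  have key : ∀ m, m < K → ∑ i ∈ range m, 1 / bI s n i ≤
      8 * (Real.log (bI s n 0) - Real.log (bI s n m)) := by
    intro m
    induction m with
    | zero => intro _; simp
    | succ m ih =>
      intro hm
      rw [sum_range_succ]
      have h2 := ih (by omega)
      have h3 := bI_step_lower hΛ g s hm
      have p1 := hpos (m + 1) hm
      have p2 := hpos m (by omega)
      have h4 : 1 / bI s n m ≤ 8 * (Real.log (bI s n m) - Real.log (bI s n (m + 1))) := by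
        rw [← Real.log_div (by linarith) (by linarith)]
        have h5 := Real.one_sub_inv_le_log_of_pos (x := bI s n m / bI s n (m + 1)) (by positivity)
        rw [inv_div] at h5
        have h6 : 1 / bI s n m ≤ 8 * (1 - bI s n (m + 1) / bI s n m) := by
          rw [one_sub_div (by linarith), mul_div_assoc']
          gcongr
          linarith
        linarith
      linarith
  obtain ⟨m, rfl⟩ : ∃ m, K = m + 1 := ⟨K - 1, by omega⟩
  rw [Nat.add_sub_cancel] at hb hlast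
  rw [sum_range_succ]
  have h5 := key m (by omega)
  have h6 : 1 / bI s n m ≤ 1 := by
    rw [div_le_one (by linarith)]; exact hb
  have h7 : Real.log (bI s n 0) ≤ Real.log (1 / s) := by
    refine Real.log_le_log (by linarith [hpos 0 (by omega)]) ?_
    unfold bI
    linarith [Rn_nonneg (n (0 + 1))]
  have h8 : Real.log (1 / (1 - s * Rn N)) = Real.log (1 / s) - Real.log (bI s n m) := by
    rw [hlast, ← Real.log_div (by positivity) (by rw [← hlast]; linarith)]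
    congr 1
    field_simp
  rw [h8]
  linarith

end

end Pool.Agent.H87.QC
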