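import Mathlib
import Pool.Agent.H87.QC.G

/-!
Module G5 of MP_f3a553_pr: the middle blocks of the grid carry a positive fraction of the sum.
-/

open Finset
open Pool.Agent.H95.QC

namespace Pool.Agent.H87.QC

/-- clipping to `[a, b]` -/
noncomputable def clip (a b x : ℝ) : ℝ := max a (min x b)

lemma clip_pos {a b x : ℝ} (ha : 0 < a) : 0 < clip a b x := lt_max_of_lt_left ha

lemma clip_mul {a b x t : ℝ} (ha : 0 < a) (hb : 0 < b) (ht : 1 ≤ t) :
    clip a b (t * x) ≤ t * clip a b x := by
  unfold clip
  have ht0 : 0 < t := by linarith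
  rw [mul_max_of_nonneg _ _ ht0.le, mul_min_of_nonneg _ _ ht0.le]
  refine max_le_max ?_ (min_le_min le_rfl ?_)
  · nlinarith
  · nlinarith

lemma clip_log {a b x y : ℝ} (ha : 0 < a) (hb : 0 < b) (hy : 0 < y) (hxy : y ≤ x) :
    Real.log (clip a b x) - Real.log (clip a b y) ≤ (x - y) / y := by
  have hx : 0 < x := by linarith
  have h1 : clip a b x ≤ x / y * clip a b y := by
    have := clip_mul (x := y) ha hb (t := x / y) ((one_le_div hy).2 hxy)
    rwa [div_mul_cancel₀ _ hy.ne'] at this
  have h2 : Real.log (clip a b x) ≤ Real.log (x / y) + Real.log (clip a b y) := by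
    rw [← Real.log_mul (by positivity) (clip_pos ha).ne']
    exact Real.log_le_log (clip_pos ha) h1
  have h3 : Real.log (x / y) ≤ x / y - 1 := Real.log_le_sub_one_of_pos (by positivity)
  have h4 : x / y - 1 = (x - y) / y := by rw [sub_div, div_self hy.ne']
  linarith

theorem targetG5 : TargetG5 := by
  intro Λ hΛ
  have hΛ' : (2 : ℝ) ≤ Λ := by exact_mod_cast hΛ
  refine ⟨1 / (10 * Λ), 4 ^ 10 + 4 * Λ + Λ ^ 2, by positivity, by positivity,
    fun N K n s g hs hC hb => ?_⟩
  have hK := g.hK
  have hlast := bI_last g hs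
  set κ : ℝ := 1 / s with hκ
  have hκ0 : 0 < κ := by positivity
  have hκ1 : (4 : ℝ) ^ 10 ≤ κ := by nlinarith
  have hκ2 : 4 * (Λ : ℝ) ≤ κ := by nlinarith
  have hκ3 : (Λ : ℝ) ^ 2 ≤ κ := by nlinarith
  rw [← hlast] at hb
  set A : ℝ := κ ^ (9 / 10 : ℝ) with hA
  have hκge1 : 1 ≤ κ := by nlinarith
  have hAΛ : (Λ : ℝ) ≤ A := by
    have h1 : (Λ : ℝ) = ((Λ : ℝ) ^ 2) ^ (1 / 2 : ℝ) := by
      rw [← Real.sqrt_eq_rpow, Real.sqrt_sq (by linarith)]
    rw [h1]
    calc ((Λ : ℝ) ^ 2) ^ (1 / 2 : ℝ) ≤ κ ^ (1 / 2 : ℝ) :=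
          Real.rpow_le_rpow (by positivity) hκ3 (by norm_num)
      _ ≤ κ ^ (9 / 10 : ℝ) := Real.rpow_le_rpow_of_exponent_le hκge1 (by norm_num)
  have hA0 : 0 < A := by positivity
  set L1 : ℝ := A + Λ with hL1
  set L2 : ℝ := 3 * κ / 4 - Λ with hL2
  have hL1pos : 0 < L1 := by positivity
  have hL2half : κ / 2 ≤ L2 := by rw [hL2]; linarith
  have hL2pos : 0 < L2 := by linarith
  have hA4 : 4 * A ≤ κ := by
    have h1 : κ = κ ^ (1 / 10 : ℝ) * A := by
      rw [hA, ← Real.rpow_add hκ0]; norm_num
    have h2 : (4 : ℝ) ≤ κ ^ (1 / 10 : ℝ) := by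
      have h3 : (4 : ℝ) = ((4 : ℝ) ^ 10) ^ (1 / 10 : ℝ) := by
        rw [← Real.rpow_natCast, ← Real.rpow_mul (by norm_num)]; norm_num
      conv_lhs => rw [h3]
      exact Real.rpow_le_rpow (by positivity) hκ1 (by norm_num)
    calc 4 * A ≤ κ ^ (1 / 10 : ℝ) * A := by gcongr
      _ = κ := h1.symm
  have hL12 : L1 ≤ L2 := by rw [hL1]; linarith
  have hpos : ∀ i < K, 1 ≤ bI s n i := by
    intro i hi
    have h2 := bI_ge hΛ g (s := s) (K - 1 - i) (by omega)
    have h3 : K - 1 - (K - 1 - i) = i := by omega
    rw [h3] at h2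
    have : (0 : ℝ) ≤ ((K - 1 - i : ℕ) : ℝ) / 8 := by positivity
    linarith
  set S : Finset ℕ := (range K).filter (fun i => 1 ≤ i ∧
        κ ^ (9 / 10 : ℝ) ≤ (1 - s * Rn (n (i + 1))) / s ∧ 1 / 4 ≤ s * Rn (n i)) with hS
  have h1 : ∀ i ∈ S, s / (1 - s * Rn (n (i + 1))) = 1 / bI s n i := fun i _ => by
    rw [← bI_eq hs, one_div_div]
  rw [sum_congr rfl h1]
  have hbK : ∀ i, bI s n i = κ - Rn (n (i + 1)) := fun i => rfl
  -- telescoping
  have key : ∀ m, m < K → Real.log (clip L1 L2 (bI s n 0)) - Real.log (clip L1 L2 (bI s n m)) ≤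
      Λ * ∑ i ∈ S.filter (fun i => i ≤ m), 1 / bI s n i := by
    intro m
    induction m with
    | zero =>
      intro _
      rw [sub_self]
      refine mul_nonneg (by positivity) (sum_nonneg fun i hi => ?_)
      have hi' := (mem_filter.1 hi).1
      have hiK := mem_range.1 (mem_filter.1 hi').1
      have := hpos i hiK
      positivity
    | succ m ih =>
      intro hm
      have h2 := ih (by omega)
      have p1 := hpos (m + 1) hm
      have p2 := hpos m (by omega)
      have u1 := bI_step_lower hΛ g s hm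
      have u2 := bI_step_upper hΛ g s hm
      have hsub : S.filter (fun i => i ≤ m) ⊆ S.filter (fun i => i ≤ m + 1) := by
        intro i hi
        rw [mem_filter] at hi ⊢
        exact ⟨hi.1, by omega⟩
      by_cases hmS : m + 1 ∈ S
      · have h3 : S.filter (fun i => i ≤ m + 1) = insert (m + 1) (S.filter (fun i => i ≤ m)) := by
          ext i
          constructor
          · intro h0
            obtain ⟨a1, a2⟩ := mem_filter.1 h0
            rcases Nat.lt_or_ge i (m + 1) with h | h
            · exact mem_insert_of_mem (mem_filter.2 ⟨a1, by omega⟩)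
            · exact mem_insert.2 (Or.inl (by omega))
          · intro h0
            rcases mem_insert.1 h0 with h | h
            · subst h; exact mem_filter.2 ⟨hmS, le_rfl⟩
            · obtain ⟨a1, a2⟩ := mem_filter.1 h
              exact mem_filter.2 ⟨a1, by omega⟩
        have h4 : m + 1 ∉ S.filter (fun i => i ≤ m) := by
          rw [mem_filter]; rintro ⟨_, h⟩; omega
        rw [h3, sum_insert h4, mul_add]
        have h5 := clip_log (a := L1) (b := L2) (x := bI s n m) (y := bI s n (m + 1)) hL1pos
          hL2pos (by linarith) (by linarith)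
        have h6 : (bI s n m - bI s n (m + 1)) / bI s n (m + 1) ≤ Λ * (1 / bI s n (m + 1)) := by
          rw [mul_one_div]
          gcongr
          linarith
        linarith
      · have h3 : Λ * ∑ i ∈ S.filter (fun i => i ≤ m), 1 / bI s n i ≤
            Λ * ∑ i ∈ S.filter (fun i => i ≤ m + 1), 1 / bI s n i := by
          refine mul_le_mul_of_nonneg_left (sum_le_sum_of_subset_of_nonneg hsub ?_)
            (by positivity)
          intro i hi _
          have hi' := (mem_filter.1 hi).1
          have hiK := mem_range.1 (mem_filter.1 hi').1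
          have := hpos i hiK
          positivity
        -- the clipped values agree
        have h4 : clip L1 L2 (bI s n m) = clip L1 L2 (bI s n (m + 1)) := by
          rw [hS, mem_filter, mem_range] at hmS
          by_cases hc : κ ^ (9 / 10 : ℝ) ≤ bI s n (m + 1)
          · -- then the third condition fails
            have hc3 : ¬ (1 / 4 ≤ s * Rn (n (m + 1))) := by
              intro h
              exact hmS ⟨hm, by omega, by rw [bI_eq hs]; exact hc, h⟩
            have h5 : 3 * κ / 4 < bI s n m := by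
              rw [hbK m]
              have h6 : s * Rn (n (m + 1)) < 1 / 4 := not_le.1 hc3
              have h7 : Rn (n (m + 1)) < κ / 4 := by
                rw [hκ]
                rw [div_div, lt_div_iff₀ (by positivity)]
                linarith
              linarith
            have h8 : L2 ≤ bI s n (m + 1) := by rw [hL2]; linarith
            have h9 : L2 ≤ bI s n m := by linarith
            unfold clip
            rw [min_eq_right h8, min_eq_right h9]
          · have h5 : bI s n (m + 1) < A := not_le.1 hc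
            have h6 : bI s n m ≤ L1 := by rw [hL1]; linarith
            have h7 : bI s n (m + 1) ≤ L1 := by linarith
            unfold clip
            rw [max_eq_left ((min_le_left _ _).trans h6), max_eq_left ((min_le_left _ _).trans h7)]
        rw [← h4]
        linarith
  have h2 := key (K - 1) (by omega)
  have h3 : S.filter (fun i => i ≤ K - 1) = S := by
    refine filter_true_of_mem fun i hi => ?_
    have := mem_range.1 (mem_filter.1 hi).1
    omega
  rw [h3] at h2
  -- first value
  have h4 : clip L1 L2 (bI s n 0) = L2 := by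
    have h5 : Rn (n (0 + 1)) ≤ Λ := (targetG2 Λ N K n hΛ g).1
    have h6 : L2 ≤ bI s n 0 := by
      rw [hbK 0, hL2]
      linarith
    unfold clip
    rw [min_eq_right h6, max_eq_right hL12]
  rw [h4] at h2
  have hfinal : Real.log (1 / (1 - s * Rn N)) = Real.log κ - Real.log (bI s n (K - 1)) := by
    rw [hlast, ← Real.log_div (by positivity) (by rw [← hlast]; linarith)]
    congr 1
    rw [hκ]
    field_simp
  have hlogκ : Real.log (κ / 2) ≤ Real.log L2 := Real.log_le_log (by positivity) hL2half
  rw [Real.log_div hκ0.ne' (by norm_num)] at hlogκ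
  have hbpos : 0 ≤ Real.log (bI s n (K - 1)) := Real.log_nonneg hb
  have hlog4 : Real.log 2 ≤ 1 := by
    have := Real.log_le_sub_one_of_pos (show (0 : ℝ) < 2 by norm_num)
    linarith
  have hlog2pos : 0 ≤ Real.log 2 := Real.log_nonneg (by norm_num)
  have hbκ : Real.log (bI s n (K - 1)) ≤ Real.log κ := by
    refine Real.log_le_log (by linarith) ?_
    rw [hbK]
    linarith [Rn_nonneg (n (K - 1 + 1))]
  -- lower bound of the telescoped quantity
  have h5 : 1 / 10 * (Real.log κ - Real.log (bI s n (K - 1))) - 2 ≤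
      Real.log L2 - Real.log (clip L1 L2 (bI s n (K - 1))) := by
    rcases le_total (bI s n (K - 1)) L1 with hle | hge
    · have h6 : clip L1 L2 (bI s n (K - 1)) = L1 := by
        unfold clip
        exact max_eq_left ((min_le_left _ _).trans hle)
      rw [h6]
      have h7 : Real.log L1 ≤ Real.log (2 * A) :=
        Real.log_le_log hL1pos (by rw [hL1]; linarith)
      rw [Real.log_mul (by norm_num) hA0.ne', hA, Real.log_rpow hκ0] at h7
      linarith
    · have h6 : clip L1 L2 (bI s n (K - 1)) ≤ bI s n (K - 1) :=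
        max_le hge (min_le_left _ _)
      have h7 := Real.log_le_log (clip_pos hL1pos) h6
      linarith
  have hsum0 : 0 ≤ ∑ i ∈ S, 1 / bI s n i := by
    refine sum_nonneg fun i hi => ?_
    have hiK := mem_range.1 (mem_filter.1 hi).1
    have := hpos i hiK
    positivity
  rw [hfinal]
  have hΛpos : (0 : ℝ) < Λ := by linarith
  have h6 : 1 / 10 * (Real.log κ - Real.log (bI s n (K - 1))) - 2 ≤
      Λ * ∑ i ∈ S, 1 / bI s n i := h5.trans h2
  have h7 : 1 / (10 * (Λ : ℝ)) * (Real.log κ - Real.log (bI s n (K - 1))) - 2 / Λ ≤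
      ∑ i ∈ S, 1 / bI s n i := by
    have : 1 / (10 * (Λ : ℝ)) * (Real.log κ - Real.log (bI s n (K - 1))) - 2 / Λ =
        (1 / 10 * (Real.log κ - Real.log (bI s n (K - 1))) - 2) / Λ := by
      field_simp
    rw [this, div_le_iff₀ hΛpos]
    linarith
  have h8 : 2 / (Λ : ℝ) ≤ 4 ^ 10 + 4 * Λ + Λ ^ 2 := by
    rw [div_le_iff₀ hΛpos]
    nlinarith
  linarith

end Pool.Agent.H87.QC
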